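import Pool.Agent.N928.FG.Stm

/-!
# Project FG (helper928), leaf LOW (helper377): supercritical for small `β`
-/

set_option autoImplicit false

namespace Pool.Agent.N377.FG.LOW

open Pool.Agent.N928.FG

theorem an_eq (β : ℝ) (n : ℕ) : an β n = s (1 / 2) n 0 * s β n 0 ^ 5 := by
  unfold an bet
  rw [Fin.prod_univ_succ]
  simp only [if_pos, Fin.succ_ne_zero, if_false, Finset.prod_const, Finset.card_univ,
    Fintype.card_fin]

theorem s_zero (β : ℝ) : s β 0 0 = 1 := by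
  simp [s]

theorem pow_le (h2 : S_S1) {β : ℝ} (h0 : 0 < β) (h1 : β ≤ 1 / 2) (n : ℕ) :
    (1 - β) ^ n ≤ s β n 0 := by
  induction n with
  | zero => rw [s_zero, pow_zero]
  | succ n ih =>
    have e : s β (n + 1) 0 = (1 - β) * s β n 0 + β / 2 * (s β n (0 - 1) + s β n (0 + 1)) := rfl
    have a1 := (h2 β h0 h1 n (0 - 1)).1
    have a2 := (h2 β h0 h1 n (0 + 1)).1
    have a3 : 0 ≤ β / 2 * (s β n (0 - 1) + s β n (0 + 1)) :=
      mul_nonneg (by positivity) (add_nonneg a1 a2)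
    rw [e, pow_succ]
    have a4 : (1 - β) ^ n * (1 - β) ≤ s β n 0 * (1 - β) :=
      mul_le_mul_of_nonneg_right ih (by linarith)
    linarith

theorem an_nonneg (h2 : S_S1) {β : ℝ} (h0 : 0 < β) (h1 : β ≤ 1 / 2) (n : ℕ) : 0 ≤ an β n := by
  rw [an_eq]
  exact mul_nonneg (h2 (1 / 2) (by norm_num) le_rfl n 0).1 (pow_nonneg (h2 β h0 h1 n 0).1 5)

theorem an_le (h2 : S_S1) {β : ℝ} (h0 : 0 < β) (h1 : β ≤ 1 / 2) (n : ℕ) :
    an β n ≤ s (1 / 2) n 0 := by
  rw [an_eq]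
  exact mul_le_of_le_one_right (h2 (1 / 2) (by norm_num) le_rfl n 0).1
    (pow_le_one₀ (h2 β h0 h1 n 0).1 (h2 β h0 h1 n 0).2.2.2)

theorem summ1 (h2 : S_S1) (h3 : S_AB) {β : ℝ} (h0 : 0 < β) (h1 : β ≤ 1 / 2) :
    Summable (an β) := by
  obtain ⟨c, C, hc, hC, h⟩ := h3.1 β h0 h1
  rw [← summable_nat_add_iff 1]
  have h4 : Summable fun n : ℕ => C * (1 / (n : ℝ) ^ 3) :=
    (Real.summable_one_div_nat_pow.2 (by norm_num)).mul_left C
  have h5 := (summable_nat_add_iff 1).2 h4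
  refine Summable.of_nonneg_of_le (fun n => an_nonneg h2 h0 h1 _) (fun n => ?_) h5
  have h6 := (h (n + 1) (by omega)).2
  calc an β (n + 1) ≤ C / ((n + 1 : ℕ) : ℝ) ^ 3 := h6
    _ = C * (1 / ((n + 1 : ℕ) : ℝ) ^ 3) := by ring

theorem summ2 (h2 : S_S1) (h3 : S_AB) {β : ℝ} (h0 : 0 < β) (h1 : β ≤ 1 / 2) :
    Summable fun n : ℕ => (n : ℝ) * an β n := by
  obtain ⟨c, C, hc, hC, h⟩ := h3.1 β h0 h1
  rw [← summable_nat_add_iff 1]
  have h4 : Summable fun n : ℕ => C * (1 / (n : ℝ) ^ 2) :=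
    (Real.summable_one_div_nat_pow.2 (by norm_num)).mul_left C
  have h5 := (summable_nat_add_iff 1).2 h4
  refine Summable.of_nonneg_of_le
    (fun n => mul_nonneg (Nat.cast_nonneg _) (an_nonneg h2 h0 h1 _)) (fun n => ?_) h5
  have h6 := (h (n + 1) (by omega)).2
  have h7 : (0 : ℝ) < ((n + 1 : ℕ) : ℝ) := by positivity
  calc ((n + 1 : ℕ) : ℝ) * an β (n + 1) ≤ ((n + 1 : ℕ) : ℝ) * (C / ((n + 1 : ℕ) : ℝ) ^ 3) :=
        mul_le_mul_of_nonneg_left h6 h7.le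
    _ = C * (1 / ((n + 1 : ℕ) : ℝ) ^ 2) := by
        field_simp

theorem sqrt_sum (M : ℕ) :
    ∑ n ∈ Finset.range M, 1 / Real.sqrt ((n + 1 : ℕ) : ℝ) ≤ 2 * Real.sqrt M := by
  induction M with
  | zero => simp
  | succ M ih =>
    rw [Finset.sum_range_succ]
    have hp : 0 < Real.sqrt ((M + 1 : ℕ) : ℝ) := Real.sqrt_pos.2 (by positivity)
    have hq : 0 ≤ Real.sqrt (M : ℝ) := Real.sqrt_nonneg _
    have h1 : Real.sqrt ((M + 1 : ℕ) : ℝ) ^ 2 = (M : ℝ) + 1 := by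
      rw [Real.sq_sqrt (by positivity)]
      push_cast
      ring
    have h2 : Real.sqrt (M : ℝ) ^ 2 = (M : ℝ) := Real.sq_sqrt (Nat.cast_nonneg _)
    have h3 : 1 / Real.sqrt ((M + 1 : ℕ) : ℝ) ≤
        2 * Real.sqrt ((M + 1 : ℕ) : ℝ) - 2 * Real.sqrt M := by
      rw [div_le_iff₀ hp]
      nlinarith [sq_nonneg (Real.sqrt ((M + 1 : ℕ) : ℝ) - Real.sqrt M)]
    linarith

theorem t_LOW : S_QB → S_S1 → S_AB → S_LOW := by
  intro h1 h2 h3
  obtain ⟨c, hc, hlow⟩ := h1.1 (1 / 2) (by norm_num) le_rfl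
  obtain ⟨C, hC, hup⟩ := h1.2 (1 / 2) (by norm_num)
  -- the parameter
  obtain ⟨N₀, hN₀⟩ := exists_nat_gt ((2 * (5 + 256 * C ^ 2) / c) ^ 2)
  obtain ⟨N, hN⟩ : ∃ N : ℕ, N = N₀ + 1 := ⟨_, rfl⟩
  have hNp : (0 : ℝ) < N := by rw [hN]; positivity
  have hN1 : (1 : ℝ) ≤ N := by rw [hN]; push_cast; linarith [Nat.cast_nonneg (α := ℝ) N₀]
  have hsq : 2 * (5 + 256 * C ^ 2) / c ≤ Real.sqrt N := by
    refine Real.le_sqrt_of_sq_le ?_
    rw [hN]
    push_cast
    linarith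
  obtain ⟨β, hβ⟩ : ∃ β : ℝ, β = 1 / (10 * N) := ⟨_, rfl⟩
  have hβ0 : 0 < β := by rw [hβ]; positivity
  have hβ1 : β ≤ 1 / 2 := by
    rw [hβ]
    refine one_div_le_one_div_of_le (by norm_num) (by linarith)
  have hβN : β * (10 * N) = 1 := by rw [hβ]; field_simp
  refine ⟨β, hβ0, hβ1, ?_⟩
  have s1 := summ1 h2 h3 hβ0 hβ1
  have s2 := summ2 h2 h3 hβ0 hβ1
  set G : ℝ := ∑' n : ℕ, an β n with hG
  -- lower bound of `G`
  have hGlow : c * Real.sqrt N / 2 ≤ G := by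
    have h4 : ∑ n ∈ Finset.Icc 1 N, an β n ≤ G :=
      s1.sum_le_tsum _ fun n _ => an_nonneg h2 hβ0 hβ1 n
    refine le_trans ?_ h4
    have h5 : ∀ n ∈ Finset.Icc 1 N, c / (2 * Real.sqrt N) ≤ an β n := by
      intro n hn
      rw [Finset.mem_Icc] at hn
      have hnN : (n : ℝ) ≤ N := by exact_mod_cast hn.2
      have hn1 : (1 : ℝ) ≤ n := by exact_mod_cast hn.1
      have h6 := hlow n hn.1
      have h7 : c / Real.sqrt N ≤ s (1 / 2) n 0 := by
        refine le_trans ?_ h6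
        refine div_le_div_of_nonneg_left hc.le (Real.sqrt_pos.2 (by linarith)) ?_
        exact Real.sqrt_le_sqrt hnN
      have h8 : 1 / 2 ≤ s β n 0 ^ 5 := by
        have h9 := pow_le h2 hβ0 hβ1 n
        have h10 : (1 - β) ^ (5 * n) ≤ s β n 0 ^ 5 := by
          rw [mul_comm, pow_mul]
          exact pow_le_pow_left₀ (pow_nonneg (by linarith) _) h9 5
        have h11 := one_add_mul_le_pow (a := -β) (by linarith) (5 * n)
        have h12 : (1 : ℝ) + ((5 * n : ℕ) : ℝ) * -β = 1 - 5 * (n * β) := by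
          push_cast
          ring
        rw [h12] at h11
        have h13 : (n : ℝ) * β ≤ N * β := mul_le_mul_of_nonneg_right hnN hβ0.le
        have h14 : (N : ℝ) * β = 1 / 10 := by linarith
        have h15 : (1 : ℝ) + -β = 1 - β := by ring
        rw [h15] at h11
        linarith
      rw [an_eq]
      calc c / (2 * Real.sqrt N) = c / Real.sqrt N * (1 / 2) := by
            rw [mul_comm 2, div_mul_eq_div_div]
            ring
        _ ≤ s (1 / 2) n 0 * s β n 0 ^ 5 :=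
            mul_le_mul h7 h8 (by norm_num) (h2 (1 / 2) (by norm_num) le_rfl n 0).1
    have h6 := Finset.card_nsmul_le_sum _ _ _ h5
    rw [Nat.card_Icc, nsmul_eq_mul] at h6
    refine le_trans (le_of_eq ?_) h6
    have h7 : Real.sqrt N * Real.sqrt N = N := Real.mul_self_sqrt hNp.le
    have h8 : 0 < Real.sqrt N := Real.sqrt_pos.2 hNp
    have h9 : ((N + 1 - 1 : ℕ) : ℝ) = N := by simp
    rw [h9]
    nth_rw 2 [← h7]
    field_simp
  have hG1 : 5 + 256 * C ^ 2 ≤ G := by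
    refine le_trans ?_ hGlow
    rw [div_le_iff₀ hc] at hsq
    linarith
  have hG0 : 0 < G := lt_of_lt_of_le (by positivity) hG1
  -- the cut
  obtain ⟨M, hM⟩ : ∃ M : ℕ, M = ⌊(G / (8 * C)) ^ 2⌋₊ := ⟨_, rfl⟩
  have hM1 : (M : ℝ) ≤ (G / (8 * C)) ^ 2 := by
    rw [hM]
    exact Nat.floor_le (by positivity)
  have hM2 : (G / (8 * C)) ^ 2 < (M : ℝ) + 1 := by
    rw [hM]
    exact Nat.lt_floor_add_one _
  have hMs : Real.sqrt M ≤ G / (8 * C) := Real.sqrt_le_iff.2 ⟨by positivity, hM1⟩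
  have hhead : ∑ n ∈ Finset.range (M + 1), an β n ≤ G / 2 := by
    rw [Finset.sum_range_succ']
    have h4 : an β 0 ≤ 1 := by
      rw [an_eq, s_zero, s_zero]
      norm_num
    have h5 : ∑ n ∈ Finset.range M, an β (n + 1) ≤ C * (2 * Real.sqrt M) := by
      calc ∑ n ∈ Finset.range M, an β (n + 1)
          ≤ ∑ n ∈ Finset.range M, C * (1 / Real.sqrt ((n + 1 : ℕ) : ℝ)) := by
            refine Finset.sum_le_sum fun n _ => ?_
            have h6 := hup (1 / 2) le_rfl le_rfl (n + 1) (by omega)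
            calc an β (n + 1) ≤ s (1 / 2) (n + 1) 0 := an_le h2 hβ0 hβ1 _
              _ ≤ C / Real.sqrt ((n + 1 : ℕ) : ℝ) := h6
              _ = C * (1 / Real.sqrt ((n + 1 : ℕ) : ℝ)) := by ring
        _ = C * ∑ n ∈ Finset.range M, 1 / Real.sqrt ((n + 1 : ℕ) : ℝ) := by
            rw [Finset.mul_sum]
        _ ≤ C * (2 * Real.sqrt M) := mul_le_mul_of_nonneg_left (sqrt_sum M) hC.le
    have h6 : C * (2 * Real.sqrt M) ≤ C * (2 * (G / (8 * C))) :=
      mul_le_mul_of_nonneg_left (by linarith) hC.le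
    have h7 : C * (2 * (G / (8 * C))) = G / 4 := by
      field_simp
      norm_num
    have h8 : 0 ≤ 256 * C ^ 2 := by positivity
    linarith
  have e1 := s1.sum_add_tsum_nat_add (M + 1)
  have e2 := s2.sum_add_tsum_nat_add (M + 1)
  have t1 : Summable fun n => an β (n + (M + 1)) := (summable_nat_add_iff (M + 1)).2 s1
  have t2 : Summable fun n => ((n + (M + 1) : ℕ) : ℝ) * an β (n + (M + 1)) :=
    (summable_nat_add_iff (M + 1)).2 s2
  have h4 : ((M : ℝ) + 1) * ∑' n, an β (n + (M + 1)) ≤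
      ∑' n, ((n + (M + 1) : ℕ) : ℝ) * an β (n + (M + 1)) := by
    rw [← tsum_mul_left]
    refine Summable.tsum_le_tsum (fun n => ?_) (t1.mul_left _) t2
    refine mul_le_mul_of_nonneg_right ?_ (an_nonneg h2 hβ0 hβ1 _)
    push_cast
    linarith [Nat.cast_nonneg (α := ℝ) n]
  have h5 : 0 ≤ ∑ n ∈ Finset.range (M + 1), (n : ℝ) * an β n :=
    Finset.sum_nonneg fun n _ => mul_nonneg (Nat.cast_nonneg _) (an_nonneg h2 hβ0 hβ1 _)
  have h6 : G / 2 ≤ ∑' n, an β (n + (M + 1)) := by linarith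
  have h7 : (G / (8 * C)) ^ 2 * (G / 2) ≤ ((M : ℝ) + 1) * ∑' n, an β (n + (M + 1)) :=
    mul_le_mul hM2.le h6 (by positivity) (by positivity)
  have h8 : 2 * G ^ 2 < (G / (8 * C)) ^ 2 * (G / 2) := by
    have h9 : (G / (8 * C)) ^ 2 * (G / 2) = G ^ 2 * (G / (128 * C ^ 2)) := by
      field_simp
      norm_num
    rw [h9, mul_comm]
    refine mul_lt_mul_of_pos_left ?_ (by positivity)
    rw [lt_div_iff₀ (by positivity)]
    linarith
  linarith

end Pool.Agent.N377.FG.LOW
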